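import Pool.Agent.helper40.TW.SpecG
import Pool.Agent.helper85.MT.Large

set_option autoImplicit false

open Complex MeasureTheory Metric
open scoped ComplexConjugate ArithmeticFunction.vonMangoldt

namespace Pool.Agent.TWG

open Pool.Agent.helper6.LD (wt)
open Pool.Agent.helper85.BVP (ex)
open Pool.Agent.TW (Win Pw)

theorem DENT_cover (hZFI : ZFI_stmt) {q : ℕ} (χ : DirichletCharacter ℂ q) (hq : 2 ≤ q) (hχ : χ ≠ 1)
    (S : Set ℂ) (hS : Bornology.IsBounded S) {ι : Type} (J : Finset ι) (B : ι → Set ℂ)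
    (hB : ∀ j, Bornology.IsBounded (B j)) (h : ∀ z ∈ S, ∃ j ∈ J, z ∈ B j) :
    nz χ S ≤ ∑ j ∈ J, nz χ (B j) := by
  classical
  obtain ⟨-, -, -, hmem, -, -, -⟩ := hZFI q χ hq hχ
  calc nz χ S = ∑ ρ ∈ ZS χ S, (mz χ ρ : ℝ) := rfl
    _ ≤ ∑ ρ ∈ ZS χ S, ∑ j ∈ J, (if ρ ∈ ZS χ (B j) then (mz χ ρ : ℝ) else 0) := by
        refine Finset.sum_le_sum fun ρ hρ => ?_
        have h1 := (hmem S hS ρ).1 hρ
        obtain ⟨j, hj, hj2⟩ := h ρ h1.1
        have h2 : ρ ∈ ZS χ (B j) := (hmem (B j) (hB j) ρ).2 ⟨hj2, h1.2⟩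
        calc (mz χ ρ : ℝ) = (if ρ ∈ ZS χ (B j) then (mz χ ρ : ℝ) else 0) := by rw [if_pos h2]
          _ ≤ _ := Finset.single_le_sum (f := fun j => (if ρ ∈ ZS χ (B j) then (mz χ ρ : ℝ) else 0))
              (fun i _ => by split_ifs <;> positivity) hj
    _ = ∑ j ∈ J, ∑ ρ ∈ ZS χ S, (if ρ ∈ ZS χ (B j) then (mz χ ρ : ℝ) else 0) := Finset.sum_comm
    _ ≤ ∑ j ∈ J, nz χ (B j) := by
        refine Finset.sum_le_sum fun j _ => ?_
        rw [← Finset.sum_filter]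
        unfold nz
        refine Finset.sum_le_sum_of_subset_of_nonneg ?_ (fun _ _ _ => by positivity)
        intro ρ hρ
        exact (Finset.mem_filter.1 hρ).2

theorem DENT_bdd (α T : ℝ) : Bornology.IsBounded (bx α T) := by
  refine (Metric.isBounded_iff_subset_closedBall 0).2 ⟨|1 - α| + 1 + |T|, ?_⟩
  intro z hz
  obtain ⟨h1, h2, h3⟩ := hz
  rw [mem_closedBall, dist_zero_right]
  have h4 : |z.re| ≤ |1 - α| + 1 := by
    rw [abs_le]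
    constructor
    · have := neg_abs_le (1 - α)
      linarith
    · have := abs_nonneg (1 - α)
      linarith
  have h5 : |z.im| ≤ |T| := le_trans h3 (le_abs_self T)
  calc ‖z‖ ≤ |z.re| + |z.im| := Complex.norm_le_abs_re_add_abs_im z
    _ ≤ _ := by linarith

/-- the centres -/
noncomputable def DENT_J (M : ℕ) : Finset ℤ := Finset.Icc (-(8 * (M : ℤ) ^ 6 + 1)) (8 * (M : ℤ) ^ 6 + 1)

theorem DENT_point (M : ℕ) (z : ℂ) (hz : z ∈ bx (1 / 8) ((M : ℝ) ^ 6)) :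
    ∃ j ∈ DENT_J M, z ∈ closedBall (sp 0 ((j : ℝ) / 8)) (3 / 16) := by
  obtain ⟨h1, h2, h3⟩ := hz
  refine ⟨round (8 * z.im), ?_, ?_⟩
  · have h4 := abs_sub_round (8 * z.im)
    have h5 : |(round (8 * z.im) : ℝ)| ≤ 8 * (M : ℝ) ^ 6 + 1 := by
      have e : (round (8 * z.im) : ℝ) = 8 * z.im - (8 * z.im - round (8 * z.im)) := by ring
      rw [e]
      calc |8 * z.im - (8 * z.im - round (8 * z.im))| ≤ |8 * z.im| + |8 * z.im - round (8 * z.im)| := abs_sub _ _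
        _ ≤ 8 * (M : ℝ) ^ 6 + 1 := by
            rw [abs_mul, abs_of_pos (by norm_num : (0 : ℝ) < 8)]
            linarith
    have h6 : |round (8 * z.im)| ≤ 8 * (M : ℤ) ^ 6 + 1 := by exact_mod_cast h5
    exact Finset.mem_Icc.2 (abs_le.1 h6)
  · have h4 := abs_sub_round (8 * z.im)
    rw [mem_closedBall, dist_eq_norm]
    have e : z - sp 0 ((round (8 * z.im) : ℝ) / 8) =
        ((z.re - 1 : ℝ) : ℂ) + ((z.im - (round (8 * z.im) : ℝ) / 8 : ℝ) : ℂ) * I := by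
      apply Complex.ext
      · simp [sp]
      · simp [sp]
    rw [e, Complex.norm_add_mul_I]
    rw [Real.sqrt_le_left (by norm_num)]
    have h5 := abs_le.1 h4
    have h6 : (z.re - 1) ^ 2 ≤ (1 / 8) ^ 2 := sq_le_sq' (by linarith) (by linarith)
    have h7 : (z.im - (round (8 * z.im) : ℝ) / 8) ^ 2 ≤ (1 / 16) ^ 2 := sq_le_sq' (by linarith) (by linarith)
    linarith

theorem DENT_one (hZFI : ZFI_stmt) (C : ℝ) (M : ℕ) (hC : 1 ≤ C) (hM2 : 2 ≤ M) (hMC : (8 * C) ^ 2 ≤ M)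
    (hlog : 16 / 3 ≤ Real.log M) {q : ℕ} (χ : DirichletCharacter ℂ q) (hA : Adm M χ)
    (hL : ∀ ρ₀ v : ℝ, 1 / Real.log M ≤ ρ₀ → ρ₀ ≤ 3 / 16 → |v| ≤ (M : ℝ) ^ 8 →
      nz χ (closedBall (sp 0 v) ρ₀) ≤ C * (ρ₀ * Real.log M)) :
    nz χ (bx (1 / 8) ((M : ℝ) ^ 6)) ≤ (M : ℝ) ^ 7 := by
  have hM2r : (2 : ℝ) ≤ M := by exact_mod_cast hM2
  have hM0 : (0 : ℝ) < M := by linarith
  have hM1 : (1 : ℝ) ≤ M := by linarith
  have h6 : (1 : ℝ) ≤ (M : ℝ) ^ 6 := one_le_pow₀ hM1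
  have hlog0 : 0 < Real.log M := by linarith
  have h1 : nz χ (bx (1 / 8) ((M : ℝ) ^ 6)) ≤
      ∑ j ∈ DENT_J M,
        nz χ (closedBall (sp 0 ((j : ℝ) / 8)) (3 / 16)) :=
    DENT_cover hZFI χ hA.1 hA.2.2 _ (DENT_bdd _ _) _ (fun j : ℤ => closedBall (sp 0 ((j : ℝ) / 8)) (3 / 16))
      (fun _ => isBounded_closedBall) (fun z hz => DENT_point M z hz)
  have h2 : ∀ j ∈ DENT_J M,
      nz χ (closedBall (sp 0 ((j : ℝ) / 8)) (3 / 16)) ≤ C * (3 / 16 * Real.log M) := by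
    intro j hj
    refine hL _ _ ?_ le_rfl ?_
    · rw [div_le_iff₀ hlog0]
      linarith
    · have h3 : |j| ≤ 8 * (M : ℤ) ^ 6 + 1 := abs_le.2 (Finset.mem_Icc.1 hj)
      have h4 : |(j : ℝ)| ≤ 8 * (M : ℝ) ^ 6 + 1 := by exact_mod_cast h3
      rw [abs_div, abs_of_pos (by norm_num : (0 : ℝ) < 8)]
      have h5 : (M : ℝ) ^ 8 = (M : ℝ) ^ 6 * (M : ℝ) ^ 2 := by ring
      have h7 : (4 : ℝ) ≤ (M : ℝ) ^ 2 := by nlinarith
      rw [h5]
      nlinarith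
  have hcard : ((DENT_J M).card : ℝ) = 16 * (M : ℝ) ^ 6 + 3 := by
    rw [DENT_J, Int.card_Icc]
    have e : (8 * (M : ℤ) ^ 6 + 1 + 1 - -(8 * (M : ℤ) ^ 6 + 1)) = ((16 * M ^ 6 + 3 : ℕ) : ℤ) := by
      push_cast
      ring
    rw [e, Int.toNat_natCast]
    push_cast
    ring
  have h3 := h1.trans (Finset.sum_le_card_nsmul _ _ _ h2)
  rw [nsmul_eq_mul, hcard] at h3
  have hsq : 8 * C ≤ √(M : ℝ) := Real.le_sqrt_of_sq_le hMC
  have hs0 : 0 < √(M : ℝ) := Real.sqrt_pos.2 hM0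
  have hss : √(M : ℝ) * √(M : ℝ) = M := Real.mul_self_sqrt hM0.le
  have hlogs : Real.log M ≤ 2 * √(M : ℝ) := by
    have h4 := Real.log_sqrt hM0.le
    have h5 := Real.log_le_sub_one_of_pos hs0
    linarith
  have h8 : 4 * C * Real.log M ≤ M := by
    calc 4 * C * Real.log M ≤ 4 * C * (2 * √(M : ℝ)) := mul_le_mul_of_nonneg_left hlogs (by linarith)
      _ = 8 * C * √(M : ℝ) := by ring
      _ ≤ √(M : ℝ) * √(M : ℝ) := mul_le_mul_of_nonneg_right hsq hs0.le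
      _ = M := hss
  calc nz χ (bx (1 / 8) ((M : ℝ) ^ 6)) ≤ (16 * (M : ℝ) ^ 6 + 3) * (C * (3 / 16 * Real.log M)) := h3
    _ = ((16 * (M : ℝ) ^ 6 + 3) * (3 / 16)) * (C * Real.log M) := by ring
    _ ≤ (4 * (M : ℝ) ^ 6) * (C * Real.log M) := by
        refine mul_le_mul_of_nonneg_right ?_ (by positivity)
        linarith
    _ = (M : ℝ) ^ 6 * (4 * C * Real.log M) := by ring
    _ ≤ (M : ℝ) ^ 6 * M := mul_le_mul_of_nonneg_left h8 (by positivity)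
    _ = (M : ℝ) ^ 7 := by ring

theorem DENT (hZFI : ZFI_stmt) (hLCT : LCT_stmt) : DENT_stmt := by
  obtain ⟨C, M₁, hC, hM₁, hL⟩ := hLCT
  obtain ⟨M₂, hM₂⟩ := exists_nat_ge (Real.exp (16 / 3))
  obtain ⟨M₃, hM₃⟩ := exists_nat_ge ((8 * C) ^ 2)
  refine ⟨max M₁ (max M₂ M₃), ?_⟩
  intro M hM
  have hM1 : M₁ ≤ M := le_trans (le_max_left _ _) hM
  have hM2 : M₂ ≤ M := le_trans (le_trans (le_max_left _ _) (le_max_right _ _)) hM
  have hM3 : M₃ ≤ M := le_trans (le_trans (le_max_right _ _) (le_max_right _ _)) hM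
  have hM0 : 0 < M := by omega
  have hMr : (0 : ℝ) < M := by exact_mod_cast hM0
  have hlog : 16 / 3 ≤ Real.log M := by
    rw [Real.le_log_iff_exp_le hMr]
    exact le_trans hM₂ (by exact_mod_cast hM2)
  have hMC : (8 * C) ^ 2 ≤ (M : ℝ) := le_trans hM₃ (by exact_mod_cast hM3)
  have hq : ∀ q ∈ Finset.Icc 2 M, ∑ χ ∈ PC q, nz χ (bx (1 / 8) ((M : ℝ) ^ 6)) ≤ (M : ℝ) * (M : ℝ) ^ 7 := by
    intro q hq
    obtain ⟨hq2, hqM⟩ := Finset.mem_Icc.1 hq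
    have : NeZero q := ⟨by omega⟩
    have h1 : ∀ χ ∈ PC q, nz χ (bx (1 / 8) ((M : ℝ) ^ 6)) ≤ (M : ℝ) ^ 7 := by
      intro χ hχ
      have hp : χ.IsPrimitive := by simpa [PC] using hχ
      have hA : Adm M χ := ⟨hq2, hqM, Pool.Agent.helper85.MT.prim_ne_one hq2 hp⟩
      exact DENT_one hZFI C M hC (by omega) hMC hlog χ hA (fun ρ₀ v => hL M hM1 q χ hA ρ₀ v)
    have h2 := Finset.sum_le_card_nsmul _ _ _ h1
    rw [nsmul_eq_mul] at h2
    refine h2.trans (mul_le_mul_of_nonneg_right ?_ (by positivity))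
    have h3 : ((PC q).card : ℝ) ≤ Nat.totient q := Pool.Agent.helper85.MT.card_prim_le q
    have h4 : (Nat.totient q : ℝ) ≤ q := by exact_mod_cast Nat.totient_le q
    have h5 : (q : ℝ) ≤ M := by exact_mod_cast hqM
    linarith
  have h2 := Finset.sum_le_card_nsmul _ _ _ hq
  rw [nsmul_eq_mul] at h2
  refine h2.trans ?_
  have hc : ((Finset.Icc 2 M).card : ℝ) ≤ M := by
    rw [Nat.card_Icc]
    have : M + 1 - 2 ≤ M := by omega
    exact_mod_cast this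
  calc ((Finset.Icc 2 M).card : ℝ) * ((M : ℝ) * (M : ℝ) ^ 7) ≤ (M : ℝ) * ((M : ℝ) * (M : ℝ) ^ 7) :=
        mul_le_mul_of_nonneg_right hc (by positivity)
    _ = (M : ℝ) ^ 9 := by ring

end Pool.Agent.TWG
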