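import Pool.Agent.helper40.TW.SpecG

set_option autoImplicit false

open Complex MeasureTheory Metric
open scoped ComplexConjugate ArithmeticFunction.vonMangoldt

namespace Pool.Agent.TWG

open Pool.Agent.helper6.LD (wt)
open Pool.Agent.helper85.BVP (ex)
open Pool.Agent.TW (Win Pw)

theorem JAP_low (K : ℕ) (a x : ℝ) (hK : 1 ≤ K) (ha : 0 < a) :
    a ^ (K + 1) * (1 + (√(((K : ℝ) + 1) / 2) / a * x) ^ 2) ≤ ‖((a : ℝ) : ℂ) + ((x : ℝ) : ℂ) * I‖ ^ (K + 1) := by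
  have hn : ‖((a : ℝ) : ℂ) + ((x : ℝ) : ℂ) * I‖ = a * √(1 + (x / a) ^ 2) := by
    rw [Complex.norm_add_mul_I]
    have e : a ^ 2 + x ^ 2 = a ^ 2 * (1 + (x / a) ^ 2) := by
      field_simp
    rw [e, Real.sqrt_mul (sq_nonneg a), Real.sqrt_sq ha.le]
  rw [hn, mul_pow a]
  refine mul_le_mul_of_nonneg_left ?_ (pow_nonneg ha.le (K + 1))
  have hb : 1 + (((K : ℝ) + 1) / 2) * (x / a) ^ 2 ≤ (1 + (x / a) ^ 2) ^ (((K : ℝ) + 1) / 2) := by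
    have hs : (-1 : ℝ) ≤ (x / a) ^ 2 := by
      have := sq_nonneg (x / a)
      linarith
    have hp : (1 : ℝ) ≤ ((K : ℝ) + 1) / 2 := by
      have : (1 : ℝ) ≤ K := by exact_mod_cast hK
      linarith
    exact one_add_mul_self_le_rpow_one_add hs hp
  have e1 : √(1 + (x / a) ^ 2) ^ (K + 1) = (1 + (x / a) ^ 2) ^ (((K : ℝ) + 1) / 2) := by
    rw [Real.sqrt_eq_rpow, ← Real.rpow_natCast, ← Real.rpow_mul (by positivity)]
    congr 1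
    push_cast
    ring
  have e2 : (√(((K : ℝ) + 1) / 2) / a * x) ^ 2 = (((K : ℝ) + 1) / 2) * (x / a) ^ 2 := by
    rw [mul_pow, div_pow, Real.sq_sqrt (by positivity)]
    ring
  rw [e1, e2]
  exact hb

theorem JAP : JAP_stmt := by
  refine ⟨5, by norm_num, ?_⟩
  intro K a γ hK ha
  obtain ⟨c, hc⟩ : ∃ c : ℝ, c = √(((K : ℝ) + 1) / 2) / a := ⟨_, rfl⟩
  have hc0 : 0 < c := by rw [hc]; positivity
  have hpos : ∀ v : ℝ, 0 < ‖((a : ℝ) : ℂ) + ((v - γ : ℝ) : ℂ) * I‖ := by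
    intro v
    rw [norm_pos_iff]
    intro h
    have := congrArg Complex.re h
    simp at this
    linarith
  have hint : Integrable (fun v : ℝ => (a ^ (K + 1))⁻¹ * (1 + (c * (v - γ)) ^ 2)⁻¹) := by
    have h1 : Integrable (fun x : ℝ => (1 + x ^ 2)⁻¹) := integrable_inv_one_add_sq
    have h2 : Integrable (fun x : ℝ => (1 + (c * x) ^ 2)⁻¹) := h1.comp_mul_left' hc0.ne'
    exact (h2.comp_sub_right γ).const_mul _
  have hbd : ∀ v : ℝ, (‖((a : ℝ) : ℂ) + ((v - γ : ℝ) : ℂ) * I‖ ^ (K + 1))⁻¹ ≤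
      (a ^ (K + 1))⁻¹ * (1 + (c * (v - γ)) ^ 2)⁻¹ := by
    intro v
    rw [← mul_inv, hc]
    exact inv_anti₀ (by positivity) (JAP_low K a (v - γ) hK ha)
  have hcont : Continuous (fun v : ℝ => (‖((a : ℝ) : ℂ) + ((v - γ : ℝ) : ℂ) * I‖ ^ (K + 1))⁻¹) := by
    refine Continuous.inv₀ (by fun_prop) ?_
    intro v
    exact (pow_pos (hpos v) _).ne'
  have hI : Integrable (fun v : ℝ => (‖((a : ℝ) : ℂ) + ((v - γ : ℝ) : ℂ) * I‖ ^ (K + 1))⁻¹) := by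
    refine hint.mono' hcont.aestronglyMeasurable (Filter.Eventually.of_forall fun v => ?_)
    rw [Real.norm_of_nonneg (inv_nonneg.2 (pow_nonneg (norm_nonneg _) _))]
    exact hbd v
  refine ⟨hI, ?_⟩
  have hval : ∫ v : ℝ, (a ^ (K + 1))⁻¹ * (1 + (c * (v - γ)) ^ 2)⁻¹ = (a ^ (K + 1))⁻¹ * (c⁻¹ * Real.pi) := by
    rw [integral_const_mul]
    congr 1
    have h1 : ∫ v : ℝ, (1 + (c * (v - γ)) ^ 2)⁻¹ = ∫ v : ℝ, (1 + (c * v) ^ 2)⁻¹ :=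
      integral_sub_right_eq_self (fun v : ℝ => (1 + (c * v) ^ 2)⁻¹) γ
    have h2 : ∫ v : ℝ, (1 + (c * v) ^ 2)⁻¹ = |c⁻¹| • ∫ v : ℝ, (1 + v ^ 2)⁻¹ :=
      Measure.integral_comp_mul_left (fun v : ℝ => (1 + v ^ 2)⁻¹) c
    rw [h1, h2, integral_univ_inv_one_add_sq, smul_eq_mul, abs_of_pos (inv_pos.2 hc0)]
  refine (integral_mono hI hint hbd).trans ?_
  rw [hval]
  have hK0 : (0 : ℝ) < (K : ℝ) + 1 := by positivity
  have e1 : (a ^ (K + 1))⁻¹ * (c⁻¹ * Real.pi) = (√2 * Real.pi) * (a ^ K)⁻¹ / √((K : ℝ) + 1) := by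
    rw [hc, Real.sqrt_div hK0.le]
    have h3 : √((K : ℝ) + 1) ≠ 0 := (Real.sqrt_pos.2 hK0).ne'
    have h4 : √(2 : ℝ) ≠ 0 := (Real.sqrt_pos.2 (by norm_num)).ne'
    rw [pow_succ]
    field_simp
  rw [e1]
  have h5 : √2 * Real.pi ≤ 5 := by
    have h6 : √2 < 1.4143 := by
      rw [Real.sqrt_lt' (by norm_num)]
      norm_num
    have h7 := Real.pi_lt_d2
    have h8 := Real.pi_pos
    nlinarith
  have h9 : 0 ≤ (a ^ K)⁻¹ / √((K : ℝ) + 1) := by positivity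
  calc (√2 * Real.pi) * (a ^ K)⁻¹ / √((K : ℝ) + 1) = (√2 * Real.pi) * ((a ^ K)⁻¹ / √((K : ℝ) + 1)) := by ring
    _ ≤ 5 * ((a ^ K)⁻¹ / √((K : ℝ) + 1)) := mul_le_mul_of_nonneg_right h5 h9
    _ = 5 * (a ^ K)⁻¹ / √((K : ℝ) + 1) := by ring

end Pool.Agent.TWG
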