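import Pool.Agent.helper40.TW.SpecG

set_option autoImplicit false

open Complex MeasureTheory Metric
open scoped ComplexConjugate ArithmeticFunction.vonMangoldt

namespace Pool.Agent.TWG

open Pool.Agent.helper6.LD (wt)
open Pool.Agent.helper85.BVP (ex)
open Pool.Agent.TW (Win Pw)

theorem MER (hSER : SER_stmt) (hZE1 : ZE1_stmt) : MER_stmt := by
  obtain ⟨C, hC, h1, -⟩ := hZE1
  have hE1 : (1 : ℝ) ≤ Real.exp 1 := Real.one_le_exp (by norm_num)
  refine ⟨Real.exp 1 * (1 + C), by nlinarith, ?_⟩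
  intro x hx
  have hx0 : 0 < x := by linarith
  have hlog : 0 ≤ Real.log x := Real.log_nonneg hx
  obtain ⟨r, hr⟩ : ∃ r : ℝ, r = 1 / (1 + Real.log x) := ⟨_, rfl⟩
  have hr0 : 0 < r := by rw [hr]; positivity
  have hr1 : r ≤ 1 := by
    rw [hr, div_le_one (by positivity)]
    linarith
  obtain ⟨hs, hnn, -⟩ := hSER 1 1 1 r le_rfl le_rfl hr0
  have hterm : ∀ n ∈ Finset.Icc 1 ⌊x⌋₊, Λ n / n ≤ Real.exp 1 * wt (1 + r) 1 n := by
    intro n hn
    obtain ⟨hn1, hnx⟩ := Finset.mem_Icc.1 hn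
    have hn0 : (0 : ℝ) < n := by exact_mod_cast hn1
    have hnx' : (n : ℝ) ≤ x := (Nat.le_floor_iff hx0.le).1 hnx
    have hΛ : 0 ≤ Λ n := ArithmeticFunction.vonMangoldt_nonneg
    have e : wt (1 + r) 1 n = Λ n / n * (n : ℝ) ^ (-r) := by
      simp only [wt, Nat.sub_self, pow_zero, Nat.factorial_zero, Nat.cast_one, mul_one, div_one]
      rw [neg_add, Real.rpow_add hn0, Real.rpow_neg_one]
      ring
    have h2 : Real.exp (-1) ≤ (n : ℝ) ^ (-r) := by
      rw [Real.rpow_def_of_pos hn0]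
      apply Real.exp_le_exp.2
      have h3 : Real.log n ≤ Real.log x := Real.log_le_log hn0 hnx'
      have h4 : r * Real.log x ≤ 1 := by
        rw [hr, div_mul_eq_mul_div, one_mul, div_le_one (by positivity)]
        linarith
      nlinarith
    rw [e]
    have h5 : 1 ≤ Real.exp 1 * (n : ℝ) ^ (-r) := by
      calc (1 : ℝ) = Real.exp 1 * Real.exp (-1) := by rw [← Real.exp_add]; norm_num
        _ ≤ _ := mul_le_mul_of_nonneg_left h2 (Real.exp_pos _).le
    have h6 : 0 ≤ Λ n / n := by positivity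
    calc Λ n / n = Λ n / n * 1 := by ring
      _ ≤ Λ n / n * (Real.exp 1 * (n : ℝ) ^ (-r)) := mul_le_mul_of_nonneg_left h5 h6
      _ = _ := by ring
  calc ∑ n ∈ Finset.Icc 1 ⌊x⌋₊, Λ n / n ≤ ∑ n ∈ Finset.Icc 1 ⌊x⌋₊, Real.exp 1 * wt (1 + r) 1 n :=
        Finset.sum_le_sum hterm
    _ = Real.exp 1 * ∑ n ∈ Finset.Icc 1 ⌊x⌋₊, wt (1 + r) 1 n := by rw [Finset.mul_sum]
    _ ≤ Real.exp 1 * ∑' n, wt (1 + r) 1 n :=
        mul_le_mul_of_nonneg_left (hs.sum_le_tsum _ fun n _ => hnn n) (Real.exp_pos _).le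
    _ ≤ Real.exp 1 * (1 / r + C) := mul_le_mul_of_nonneg_left (h1 r hr0 hr1) (Real.exp_pos _).le
    _ = Real.exp 1 * (1 + Real.log x + C) := by rw [hr, one_div_one_div]
    _ ≤ Real.exp 1 * ((1 + C) * (1 + Real.log x)) := by
        refine mul_le_mul_of_nonneg_left ?_ (Real.exp_pos _).le
        nlinarith
    _ = _ := by ring

end Pool.Agent.TWG
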