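import Pool.Agent.helper40.TW.SpecG

set_option autoImplicit false

open Complex MeasureTheory Metric
open scoped ComplexConjugate ArithmeticFunction.vonMangoldt

namespace Pool.Agent.TWG

open Pool.Agent.helper6.LD (wt)
open Pool.Agent.helper85.BVP (ex)
open Pool.Agent.TW (Win Pw)

theorem ONE (hZFI : ZFI_stmt) (hEXP : EXP_stmt) : ONE_stmt := by
  obtain ⟨C, M₀, hC, hM₀, hE⟩ := hEXP (3 / 8) (by norm_num) le_rfl
  refine ⟨C * (8 / 3), M₀, by positivity, hM₀, ?_⟩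
  intro M hM q χ hA r v hr hr2 hv Z hZ
  have h1 := hE M hM q χ hA r v 1 hr hr2 hv le_rfl
  obtain ⟨-, -, -, hmem, hmz, -, -⟩ := hZFI q χ hA.1 hA.2.2
  have hr0 : 0 ≤ r := le_trans (by positivity) hr
  have hsub : Z ⊆ ZS χ (closedBall (sp r v) (3 / 8)) := by
    intro ρ hρ
    rw [hmem _ isBounded_closedBall ρ]
    refine ⟨?_, (hZ ρ hρ).1⟩
    rw [mem_closedBall, dist_comm, dist_eq_norm]
    exact (hZ ρ hρ).2
  have hnn : ∀ ρ : ℂ, LL χ ρ = 0 → 0 ≤ ((sp r v - ρ)⁻¹).re := by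
    intro ρ hρ
    have h2 := (hmz ρ hρ).2
    rw [Complex.inv_re]
    apply div_nonneg _ (Complex.normSq_nonneg _)
    simp [sp]
    linarith
  have hsum : ∑ ρ ∈ Z, ((sp r v - ρ)⁻¹).re ≤
      (∑ ρ ∈ ZS χ (closedBall (sp r v) (3 / 8)), (mz χ ρ : ℂ) * ((sp r v - ρ) ^ 1)⁻¹).re := by
    rw [Complex.re_sum]
    refine le_trans ?_ (Finset.sum_le_sum_of_subset_of_nonneg hsub ?_)
    · refine Finset.sum_le_sum fun ρ hρ => ?_
      have h3 := hnn ρ (hZ ρ hρ).1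
      have h4 : (1 : ℝ) ≤ (mz χ ρ : ℝ) := by exact_mod_cast (hmz ρ (hZ ρ hρ).1).1
      rw [pow_one, ← Complex.ofReal_natCast, Complex.re_ofReal_mul]
      nlinarith
    · intro ρ hρ _
      have h3 := hnn ρ ((hmem _ isBounded_closedBall ρ).1 hρ).2
      rw [pow_one, ← Complex.ofReal_natCast, Complex.re_ofReal_mul]
      positivity
  have h5 := (Complex.re_le_norm _).trans h1
  rw [Complex.add_re] at h5
  have h6 : C * Real.log M * ((1 : ℕ) : ℝ) ^ 2 * ((3 / 8 : ℝ) ^ 1)⁻¹ = C * (8 / 3) * Real.log M := by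
    norm_num
    ring
  rw [h6] at h5
  linarith

end Pool.Agent.TWG
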