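import Pool.Agent.helper40.TW.SpecG

set_option autoImplicit false

open Complex MeasureTheory Metric
open scoped ComplexConjugate ArithmeticFunction.vonMangoldt

namespace Pool.Agent.TWG

open Pool.Agent.helper6.LD (wt)
open Pool.Agent.helper85.BVP (ex)
open Pool.Agent.TW (Win Pw)

theorem POS_wt0 (r : ℝ) (k : ℕ) : wt (1 + r) k 0 = 0 := by
  simp [wt]

theorem POS_norm {q : ℕ} (χ : DirichletCharacter ℂ q) (n : ℕ) (v : ℝ) (hn : n ≠ 0) :
    ‖χ n * (n : ℂ) ^ (-(v * I))‖ ≤ 1 := by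
  rw [norm_mul, Complex.norm_natCast_cpow_of_pos (Nat.pos_of_ne_zero hn)]
  have : (-((v : ℂ) * I)).re = 0 := by simp
  rw [this, Real.rpow_zero, mul_one]
  exact χ.norm_le_one _

theorem POS_sq {q : ℕ} (χ : DirichletCharacter ℂ q) (n : ℕ) (v : ℝ) :
    (χ ^ 2) n * (n : ℂ) ^ (-(((2 * v : ℝ) : ℂ) * I)) = (χ n * (n : ℂ) ^ (-(v * I))) ^ 2 := by
  rw [MulChar.pow_apply' χ two_ne_zero, mul_pow, ← Complex.cpow_nat_mul]
  congr 2
  push_cast
  ring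

theorem POS_ineq (z : ℂ) (hz : ‖z‖ ≤ 1) : 0 ≤ 3 + 4 * z.re + (z ^ 2).re := by
  have h1 : z.re ^ 2 + z.im ^ 2 ≤ 1 := by
    have h2 : ‖z‖ ^ 2 = z.re ^ 2 + z.im ^ 2 := by
      rw [Complex.sq_norm, Complex.normSq_apply]
      ring
    rw [← h2]
    exact pow_le_one₀ (norm_nonneg _) hz
  have e : (z ^ 2).re = z.re ^ 2 - z.im ^ 2 := by
    rw [sq, Complex.mul_re]
    ring
  rw [e]
  nlinarith [sq_nonneg (1 + z.re)]

theorem POS (hSER : SER_stmt) : POS_stmt := by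
  intro q χ r v hq hr
  obtain ⟨hs, hnn, hs1, -⟩ := hSER q χ 1 r hq le_rfl hr
  obtain ⟨-, -, hs2, -⟩ := hSER q (χ ^ 2) 1 r hq le_rfl hr
  constructor
  · have e1 : (PP χ 1 r v).re = ∑' n : ℕ, ((wt (1 + r) 1 n : ℂ) * χ n * (n : ℂ) ^ (-(v * I))).re :=
      Complex.re_tsum (hs1 v)
    have e2 : (PP (χ ^ 2) 1 r (2 * v)).re =
        ∑' n : ℕ, ((wt (1 + r) 1 n : ℂ) * (χ ^ 2) n * (n : ℂ) ^ (-(((2 * v : ℝ) : ℂ) * I))).re :=
      Complex.re_tsum (hs2 (2 * v))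
    have s1 : Summable (fun n : ℕ => ((wt (1 + r) 1 n : ℂ) * χ n * (n : ℂ) ^ (-(v * I))).re) :=
      (Complex.hasSum_re (hs1 v).hasSum).summable
    have s2 : Summable (fun n : ℕ => ((wt (1 + r) 1 n : ℂ) * (χ ^ 2) n * (n : ℂ) ^ (-(((2 * v : ℝ) : ℂ) * I))).re) :=
      (Complex.hasSum_re (hs2 (2 * v)).hasSum).summable
    rw [e1, e2, ← tsum_mul_left, ← tsum_mul_left, ← (hs.mul_left 3).tsum_add (s1.mul_left 4),
      ← ((hs.mul_left 3).add (s1.mul_left 4)).tsum_add s2]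
    refine tsum_nonneg fun n => ?_
    rcases eq_or_ne n 0 with rfl | hn
    · simp [POS_wt0]
    · rw [mul_assoc, Complex.re_ofReal_mul, mul_assoc ((wt (1 + r) 1 n : ℝ) : ℂ), Complex.re_ofReal_mul, POS_sq]
      have h1 := POS_ineq _ (POS_norm χ n v hn)
      have h2 := hnn n
      have e : 3 * wt (1 + r) 1 n + 4 * (wt (1 + r) 1 n * (χ n * (n : ℂ) ^ (-(v * I))).re) +
        wt (1 + r) 1 n * ((χ n * (n : ℂ) ^ (-(v * I))) ^ 2).re =
        wt (1 + r) 1 n * (3 + 4 * (χ n * (n : ℂ) ^ (-(v * I))).re + ((χ n * (n : ℂ) ^ (-(v * I))) ^ 2).re) := by ring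
      rw [e]
      exact mul_nonneg h2 h1
  · have e1 : (PP χ 1 r 0).re = ∑' n : ℕ, ((wt (1 + r) 1 n : ℂ) * χ n * (n : ℂ) ^ (-(((0 : ℝ) : ℂ) * I))).re :=
      Complex.re_tsum (hs1 0)
    have s1 : Summable (fun n : ℕ => ((wt (1 + r) 1 n : ℂ) * χ n * (n : ℂ) ^ (-(((0 : ℝ) : ℂ) * I))).re) :=
      (Complex.hasSum_re (hs1 0).hasSum).summable
    rw [e1, ← hs.tsum_add s1]
    refine tsum_nonneg fun n => ?_
    rcases eq_or_ne n 0 with rfl | hn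
    · simp [POS_wt0]
    · rw [mul_assoc, Complex.re_ofReal_mul]
      have h1 := POS_norm χ n 0 hn
      have h2 := hnn n
      have h3 := (abs_le.1 ((Complex.abs_re_le_norm _).trans h1)).1
      nlinarith

end Pool.Agent.TWG
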