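import Pool.Agent.helper40.TW.SpecG

set_option autoImplicit false

open Complex MeasureTheory Metric
open scoped ComplexConjugate ArithmeticFunction.vonMangoldt

namespace Pool.Agent.TWG

open Pool.Agent.helper6.LD (wt)
open Pool.Agent.helper85.BVP (ex)
open Pool.Agent.TW (Win Pw)

theorem PRI_wt (r : ℝ) (n : ℕ) : wt (1 + r) 1 n = Λ n * (n : ℝ) ^ (-(1 + r)) := by
  simp [wt]

/-- the geometric sum at one prime -/
theorem PRI_geom (p : ℕ) (hp : p.Prime) (r : ℝ) (hr : 0 < r) :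
    Summable (fun a : ℕ => wt (1 + r) 1 (p ^ (a + 1))) ∧
      ∑' a : ℕ, wt (1 + r) 1 (p ^ (a + 1)) ≤ Real.log p := by
  have hp0 : (0 : ℝ) < p := by exact_mod_cast hp.pos
  have hp1 : (1 : ℝ) < p := by exact_mod_cast hp.one_lt
  have hp2 : (2 : ℝ) ≤ p := by exact_mod_cast hp.two_le
  have hlog : 0 < Real.log p := Real.log_pos hp1
  have hq0 : 0 < (p : ℝ)⁻¹ := by positivity
  have hq1 : (p : ℝ)⁻¹ < 1 := inv_lt_one_of_one_lt₀ hp1
  have hb : ∀ a : ℕ, 0 ≤ wt (1 + r) 1 (p ^ (a + 1)) ∧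
      wt (1 + r) 1 (p ^ (a + 1)) ≤ Real.log p * ((p : ℝ)⁻¹ * (p : ℝ)⁻¹ ^ a) := by
    intro a
    rw [PRI_wt, ArithmeticFunction.vonMangoldt_apply_pow (by omega), ArithmeticFunction.vonMangoldt_apply_prime hp]
    refine ⟨by positivity, mul_le_mul_of_nonneg_left ?_ hlog.le⟩
    have e : (p : ℝ)⁻¹ * (p : ℝ)⁻¹ ^ a = ((p ^ (a + 1) : ℕ) : ℝ) ^ (-(1 : ℝ)) := by
      rw [Real.rpow_neg_one, ← pow_succ', inv_pow]
      push_cast
      rfl
    rw [e]
    have h1 : (1 : ℝ) ≤ ((p ^ (a + 1) : ℕ) : ℝ) := by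
      exact_mod_cast Nat.one_le_pow _ _ hp.pos
    exact Real.rpow_le_rpow_of_exponent_le h1 (by linarith)
  have hg : HasSum (fun a : ℕ => Real.log p * ((p : ℝ)⁻¹ * (p : ℝ)⁻¹ ^ a))
      (Real.log p * ((p : ℝ)⁻¹ * (1 - (p : ℝ)⁻¹)⁻¹)) :=
    ((hasSum_geometric_of_lt_one hq0.le hq1).mul_left _).mul_left _
  have hs : Summable (fun a : ℕ => wt (1 + r) 1 (p ^ (a + 1))) :=
    Summable.of_nonneg_of_le (fun a => (hb a).1) (fun a => (hb a).2) hg.summable
  refine ⟨hs, ?_⟩
  calc ∑' a : ℕ, wt (1 + r) 1 (p ^ (a + 1)) ≤ ∑' a : ℕ, Real.log p * ((p : ℝ)⁻¹ * (p : ℝ)⁻¹ ^ a) :=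
        hs.tsum_le_tsum (fun a => (hb a).2) hg.summable
    _ = Real.log p * ((p : ℝ)⁻¹ * (1 - (p : ℝ)⁻¹)⁻¹) := hg.tsum_eq
    _ ≤ Real.log p * 1 := by
        refine mul_le_mul_of_nonneg_left ?_ hlog.le
        have h1 : (p : ℝ)⁻¹ ≤ 1 / 2 := by
          rw [inv_eq_one_div]
          exact one_div_le_one_div_of_le (by norm_num) hp2
        rw [← div_eq_mul_inv, div_le_one (by linarith)]
        linarith
    _ = _ := mul_one _

theorem PRI_log (q : ℕ) (hq : 1 ≤ q) : ∑ p ∈ q.primeFactors, Real.log p ≤ Real.log q := by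
  rw [← Real.log_prod (fun p hp => by
    have := (Nat.prime_of_mem_primeFactors hp).pos
    positivity)]
  have hpos : (0 : ℝ) < ∏ p ∈ q.primeFactors, (p : ℝ) :=
    Finset.prod_pos fun p hp => by
      have := (Nat.prime_of_mem_primeFactors hp).pos
      exact_mod_cast this
  refine Real.log_le_log hpos ?_
  have h1 : ∏ p ∈ q.primeFactors, p ≤ q := Nat.le_of_dvd hq (Nat.prod_primeFactors_dvd q)
  have h2 : ((∏ p ∈ q.primeFactors, p : ℕ) : ℝ) ≤ (q : ℝ) := Nat.cast_le.2 h1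
  rwa [Nat.cast_prod] at h2

theorem PRI (hSER : SER_stmt) : PRI_stmt := by
  classical
  intro q r v hq hr
  have hq0 : q ≠ 0 := by omega
  obtain ⟨hs, hnn, hs1, -⟩ := hSER q (1 : DirichletCharacter ℂ q) 1 r hq le_rfl hr
  obtain ⟨-, -, hs2, -⟩ := hSER 1 (1 : DirichletCharacter ℂ 1) 1 r le_rfl le_rfl hr
  have hs2' : Summable (fun n : ℕ => (wt (1 + r) 1 n : ℂ) * (n : ℂ) ^ (-(v * I))) := by
    refine (hs2 v).congr fun n => ?_
    have : (1 : DirichletCharacter ℂ 1) (n : ZMod 1) = 1 := MulChar.one_apply (isUnit_of_subsingleton _)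
    rw [this, mul_one]
  -- the function supported on the bad integers
  let f : ℕ → ℝ := fun n => if Nat.Coprime n q then 0 else wt (1 + r) 1 n
  have hf0 : ∀ n, 0 ≤ f n := by
    intro n
    simp only [f]
    split_ifs
    · exact le_rfl
    · exact hnn n
  have hfs : Summable f := by
    refine Summable.of_nonneg_of_le hf0 (fun n => ?_) hs
    simp only [f]
    split_ifs
    · exact hnn n
    · exact le_rfl
  have hterm : ∀ n : ℕ, ‖(wt (1 + r) 1 n : ℂ) * (1 : DirichletCharacter ℂ q) n * (n : ℂ) ^ (-(v * I)) -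
      (wt (1 + r) 1 n : ℂ) * (n : ℂ) ^ (-(v * I))‖ ≤ f n := by
    intro n
    simp only [f]
    split_ifs with h
    · have h1 : (1 : DirichletCharacter ℂ q) (n : ZMod q) = 1 :=
        MulChar.one_apply ((ZMod.isUnit_iff_coprime n q).2 h)
      rw [h1, mul_one, sub_self, norm_zero]
    · have h1 : (1 : DirichletCharacter ℂ q) (n : ZMod q) = 0 :=
        MulChar.map_nonunit _ (fun hu => h ((ZMod.isUnit_iff_coprime n q).1 hu))
      rw [h1, mul_zero, zero_mul, zero_sub, norm_neg, norm_mul, Complex.norm_real, Real.norm_of_nonneg (hnn n)]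
      rcases eq_or_ne n 0 with rfl | hn
      · simp [wt]
      · rw [Complex.norm_natCast_cpow_of_pos (Nat.pos_of_ne_zero hn)]
        have : (-((v : ℂ) * I)).re = 0 := by simp
        rw [this, Real.rpow_zero, mul_one]
  have hdiff : ‖PP (1 : DirichletCharacter ℂ q) 1 r v - ∑' n : ℕ, (wt (1 + r) 1 n : ℂ) * (n : ℂ) ^ (-(v * I))‖ ≤
      ∑' n, f n := by
    unfold PP
    rw [← (hs1 v).tsum_sub hs2']
    exact tsum_of_norm_bounded hfs.hasSum hterm
  refine hdiff.trans ?_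
  -- sum over prime powers
  let g : q.primeFactors × ℕ → ℕ := fun x => (x.1 : ℕ) ^ (x.2 + 1)
  have hginj : Function.Injective g := by
    rintro ⟨⟨p, hp⟩, a⟩ ⟨⟨p', hp'⟩, a'⟩ h
    simp only [g] at h
    have hpp := Nat.prime_of_mem_primeFactors hp
    have hpp' := Nat.prime_of_mem_primeFactors hp'
    have h1 : p = p' := by
      have : p ∣ p' ^ (a' + 1) := by
        rw [← h]
        exact dvd_pow_self p (by omega)
      exact (Nat.prime_dvd_prime_iff_eq hpp hpp').1 (hpp.dvd_of_dvd_pow this)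
    subst h1
    have h2 : a + 1 = a' + 1 := Nat.pow_right_injective hpp.two_le h
    have h3 : a = a' := by omega
    subst h3
    rfl
  have hsupp : Function.support f ⊆ Set.range g := by
    intro n hn
    simp only [Function.mem_support, f] at hn
    have hc : ¬ Nat.Coprime n q := by
      intro h
      rw [if_pos h] at hn
      exact hn rfl
    rw [if_neg hc, PRI_wt] at hn
    have hΛ : Λ n ≠ 0 := left_ne_zero_of_mul hn
    have hpp : IsPrimePow n := by
      by_contra h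
      exact hΛ (ArithmeticFunction.vonMangoldt_eq_zero_iff.2 h)
    obtain ⟨p, k, hp, hk, rfl⟩ := (isPrimePow_nat_iff n).1 hpp
    have hpq : p ∣ q := by
      by_contra h
      exact hc (((Nat.Prime.coprime_iff_not_dvd hp).2 h).pow_left k)
    refine ⟨⟨⟨p, Nat.mem_primeFactors.2 ⟨hp, hpq, hq0⟩⟩, k - 1⟩, ?_⟩
    simp only [g]
    rw [Nat.sub_add_cancel hk]
  have hfg : ∀ x : q.primeFactors × ℕ, f (g x) = wt (1 + r) 1 ((x.1 : ℕ) ^ (x.2 + 1)) := by
    intro x
    simp only [f, g]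
    rw [if_neg]
    intro h
    have hp := Nat.prime_of_mem_primeFactors x.1.2
    have hpq := Nat.dvd_of_mem_primeFactors x.1.2
    have h1 : Nat.Coprime (x.1 : ℕ) q := Nat.Coprime.coprime_dvd_left (dvd_pow_self _ (by omega)) h
    exact (Nat.Prime.coprime_iff_not_dvd hp).1 h1 hpq
  have hsg : Summable (fun x : q.primeFactors × ℕ => f (g x)) := hfs.comp_injective hginj
  have e1 : ∑' n, f n = ∑' x : q.primeFactors × ℕ, f (g x) := (hginj.tsum_eq hsupp).symm
  rw [e1, hsg.tsum_prod, tsum_fintype]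
  calc ∑ p : q.primeFactors, ∑' a : ℕ, f (g (p, a)) = ∑ p : q.primeFactors, ∑' a : ℕ, wt (1 + r) 1 ((p : ℕ) ^ (a + 1)) := by
        refine Finset.sum_congr rfl fun p _ => tsum_congr fun a => ?_
        exact hfg (p, a)
    _ ≤ ∑ p : q.primeFactors, Real.log (p : ℕ) := by
        refine Finset.sum_le_sum fun p _ => ?_
        exact (PRI_geom p (Nat.prime_of_mem_primeFactors p.2) r hr).2
    _ = ∑ p ∈ q.primeFactors, Real.log p := Finset.sum_coe_sort q.primeFactors (fun p => Real.log (p : ℕ))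
    _ ≤ Real.log q := PRI_log q hq

end Pool.Agent.TWG
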