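import Pool.Agent.helper40.TW.SpecG

set_option autoImplicit false

open Complex MeasureTheory Metric
open scoped ComplexConjugate ArithmeticFunction.vonMangoldt

namespace Pool.Agent.TWG

open Pool.Agent.helper6.LD (wt)
open Pool.Agent.helper85.BVP (ex)
open Pool.Agent.TW (Win Pw)

theorem WTB_eq (k n : ℕ) (r : ℝ) (hn : 1 ≤ n) (hr : 0 < r) :
    wt (1 + r) k n = (r ^ (k - 1))⁻¹ * (Λ n / n) *
      ((r * Real.log n) ^ (k - 1) / ((k - 1).factorial : ℝ) * Real.exp (-(r * Real.log n))) := by
  have hn0 : (0 : ℝ) < n := by exact_mod_cast hn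
  have e1 : (n : ℝ) ^ (-(1 + r)) = (n : ℝ)⁻¹ * Real.exp (-(r * Real.log n)) := by
    rw [neg_add, Real.rpow_add hn0, Real.rpow_neg_one, Real.rpow_def_of_pos hn0]
    rw [show Real.log n * -r = -(r * Real.log n) by ring]
  rw [wt, e1, mul_pow]
  have hr' : r ^ (k - 1) ≠ 0 := by positivity
  field_simp

theorem WTB : WTB_stmt := by
  intro k n r hk hn hr
  have hn0 : (0 : ℝ) < n := by exact_mod_cast hn
  have hn1 : (1 : ℝ) ≤ n := by exact_mod_cast hn
  have hlog : 0 ≤ Real.log n := Real.log_nonneg hn1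
  have hu : 0 ≤ r * Real.log n := by positivity
  have hΛ : 0 ≤ Λ n := ArithmeticFunction.vonMangoldt_nonneg
  have hpre : 0 ≤ (r ^ (k - 1))⁻¹ * (Λ n / n) := by positivity
  rw [WTB_eq k n r hn hr]
  generalize hm : k - 1 = m
  rw [hm] at hpre
  refine ⟨?_, ?_, ?_⟩
  · refine mul_le_of_le_one_right hpre ?_
    have h1 := Real.pow_div_factorial_le_exp (r * Real.log n) hu m
    calc (r * Real.log n) ^ m / (m.factorial : ℝ) * Real.exp (-(r * Real.log n))
        ≤ Real.exp (r * Real.log n) * Real.exp (-(r * Real.log n)) :=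
          mul_le_mul_of_nonneg_right h1 (Real.exp_pos _).le
      _ = 1 := by rw [← Real.exp_add, add_neg_cancel, Real.exp_zero]
  · intro hk2
    have hm0 : 0 < m := by omega
    have hm1 : (0 : ℝ) < m := by exact_mod_cast hm0
    refine mul_le_mul_of_nonneg_left ?_ hpre
    have h1 := Real.pow_div_factorial_le_exp (m : ℝ) hm1.le m
    have h2 : Real.exp (-(r * Real.log n)) ≤ 1 := Real.exp_le_one_iff.2 (by linarith)
    have h3 : 1 / (m.factorial : ℝ) ≤ Real.exp 1 ^ m / (m : ℝ) ^ m := by
      rw [← Real.exp_nat_mul, mul_one]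
      rw [div_le_iff₀ (by positivity)] at h1
      rw [div_le_div_iff₀ (by positivity) (by positivity), one_mul]
      exact h1
    calc (r * Real.log n) ^ m / (m.factorial : ℝ) * Real.exp (-(r * Real.log n))
        ≤ (r * Real.log n) ^ m / (m.factorial : ℝ) * 1 := mul_le_mul_of_nonneg_left h2 (by positivity)
      _ = (r * Real.log n) ^ m * (1 / (m.factorial : ℝ)) := by ring
      _ ≤ (r * Real.log n) ^ m * (Real.exp 1 ^ m / (m : ℝ) ^ m) := mul_le_mul_of_nonneg_left h3 (by positivity)
      _ = (Real.exp 1 * (r * Real.log n) / (m : ℝ)) ^ m := by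
          rw [div_pow, mul_pow]
          ring
  · have h1 := Real.pow_div_factorial_le_exp (r * Real.log n / 4) (by positivity) m
    have h2 : (r * Real.log n) ^ m / (m.factorial : ℝ) ≤ 4 ^ m * Real.exp (r * Real.log n / 4) := by
      have e : (r * Real.log n) ^ m / (m.factorial : ℝ) = 4 ^ m * ((r * Real.log n / 4) ^ m / (m.factorial : ℝ)) := by
        rw [div_pow]
        field_simp
      rw [e]
      exact mul_le_mul_of_nonneg_left h1 (by positivity)
    have e2 : (n : ℝ) ^ (-(1 + r / 2)) = (n : ℝ)⁻¹ * Real.exp (-(r * Real.log n / 2)) := by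
      rw [neg_add, Real.rpow_add hn0, Real.rpow_neg_one, Real.rpow_def_of_pos hn0]
      rw [show Real.log n * -(r / 2) = -(r * Real.log n / 2) by ring]
    have e3 : Real.exp (r * Real.log n / 4) * Real.exp (-(r * Real.log n)) =
        Real.exp (-(r * Real.log n / 4)) * Real.exp (-(r * Real.log n / 2)) := by
      rw [← Real.exp_add, ← Real.exp_add]
      ring_nf
    calc (r ^ m)⁻¹ * (Λ n / n) * ((r * Real.log n) ^ m / (m.factorial : ℝ) * Real.exp (-(r * Real.log n)))
        ≤ (r ^ m)⁻¹ * (Λ n / n) * (4 ^ m * Real.exp (r * Real.log n / 4) * Real.exp (-(r * Real.log n))) := by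
          refine mul_le_mul_of_nonneg_left ?_ hpre
          exact mul_le_mul_of_nonneg_right h2 (Real.exp_pos _).le
      _ = (r ^ m)⁻¹ * (Λ n / n) * (4 ^ m * (Real.exp (-(r * Real.log n / 4)) * Real.exp (-(r * Real.log n / 2)))) := by
          rw [← e3]
          ring
      _ = (r ^ m)⁻¹ * 4 ^ m * Real.exp (-(r * Real.log n / 4)) * (Λ n * (n : ℝ) ^ (-(1 + r / 2))) := by
          rw [e2]
          ring

end Pool.Agent.TWG
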