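import Pool.Agent.helper40.TW.SpecG

set_option autoImplicit false

open Complex MeasureTheory Metric
open scoped ComplexConjugate ArithmeticFunction.vonMangoldt

namespace Pool.Agent.TWG

open Pool.Agent.helper6.LD (wt)
open Pool.Agent.helper85.BVP (ex)
open Pool.Agent.TW (Win Pw)

theorem ZF1_sp (r : ℝ) (ρ : ℂ) : sp r ρ.im - ρ = ((1 + r - ρ.re : ℝ) : ℂ) := by
  apply Complex.ext
  · simp [sp]
  · simp [sp]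

theorem ZF1_num (C₂ ℓ u S P Q C₁ C : ℝ) (hC₂ : 0 < C₂) (hC1 : 0 < C₁) (hC : 0 < C) (h2 : C₂ = 3 * C₁ + 5 * C)
    (hℓ : 1 ≤ ℓ) (hu : 0 < u) (hu1 : u < 1 / (14 * C₂) / ℓ)
    (hS : S ≤ 1 / (1 / (2 * C₂) / ℓ) + C₁) (hP : P ≤ -(1 / (2 * C₂) / ℓ + u)⁻¹ + C * ℓ) (hQ : Q ≤ C * ℓ)
    (h0 : 0 ≤ 3 * S + 4 * P + Q) : False := by
  have hℓ0 : 0 < ℓ := by linarith
  have e1 : 1 / (1 / (2 * C₂) / ℓ) = 2 * C₂ * ℓ := by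
    field_simp
  have h3 : 1 / (2 * C₂) / ℓ + u < 4 / (7 * C₂) / ℓ := by
    have : 1 / (2 * C₂) / ℓ + 1 / (14 * C₂) / ℓ = 4 / (7 * C₂) / ℓ := by
      field_simp
      norm_num
    linarith
  have h4 : 0 < 1 / (2 * C₂) / ℓ + u := by positivity
  have h5 : 7 * C₂ * ℓ / 4 < (1 / (2 * C₂) / ℓ + u)⁻¹ := by
    have e : 7 * C₂ * ℓ / 4 = (4 / (7 * C₂) / ℓ)⁻¹ := by
      field_simp
    rw [e]
    exact inv_strictAnti₀ h4 h3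
  have h6 : C₁ ≤ C₁ * ℓ := le_mul_of_one_le_right hC1.le hℓ
  rw [e1] at hS
  have h7 : 3 * S + 4 * P + Q ≤ 3 * (2 * C₂ * ℓ + C₁) + 4 * (-(1 / (2 * C₂) / ℓ + u)⁻¹ + C * ℓ) + C * ℓ := by
    linarith
  have h8 : C₂ * ℓ = 3 * (C₁ * ℓ) + 5 * (C * ℓ) := by
    rw [h2]
    ring
  have h9 : 3 * (2 * C₂ * ℓ + C₁) + 4 * (-(1 / (2 * C₂) / ℓ + u)⁻¹ + C * ℓ) + C * ℓ < 0 := by
    have h10 : 7 * (C₂ * ℓ) < 4 * (1 / (2 * C₂) / ℓ + u)⁻¹ := by linarith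
    linarith
  linarith

theorem ZF1 (hZFI : ZFI_stmt) (hZE1 : ZE1_stmt) (hPOS : POS_stmt) (hONE : ONE_stmt) : ZF1_stmt := by
  obtain ⟨C₁, hC₁, hE, -⟩ := hZE1
  obtain ⟨C, M₁, hC, hM₁, hO⟩ := hONE
  obtain ⟨C₂, hC₂⟩ : ∃ C₂ : ℝ, C₂ = 3 * C₁ + 5 * C := ⟨_, rfl⟩
  have hC₂0 : 0 < C₂ := by rw [hC₂]; positivity
  obtain ⟨M₂, hM₂⟩ := exists_nat_ge (Real.exp (2 * C₂ + 8 * (1 / (2 * C₂)) + 4 * (1 / (14 * C₂)) + 1))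
  refine ⟨1 / (14 * C₂), max M₁ M₂, by positivity, le_trans hM₁ (le_max_left _ _), ?_⟩
  intro M hM q χ hA hχ ρ hρ hγ
  have hM1 : M₁ ≤ M := le_trans (le_max_left _ _) hM
  have hM3 : 3 ≤ M := le_trans hM₁ hM1
  have hMr : Real.exp (2 * C₂ + 8 * (1 / (2 * C₂)) + 4 * (1 / (14 * C₂)) + 1) ≤ M :=
    le_trans hM₂ (by exact_mod_cast le_trans (le_max_right _ _) hM)
  have hM0 : (0 : ℝ) < M := by
    have : 0 < M := by omega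
    exact_mod_cast this
  have hL : 2 * C₂ + 8 * (1 / (2 * C₂)) + 4 * (1 / (14 * C₂)) + 1 ≤ Real.log M :=
    (Real.le_log_iff_exp_le hM0).2 hMr
  have hp1 : 0 < 1 / (2 * C₂) := by positivity
  have hp2 : 0 < 1 / (14 * C₂) := by positivity
  by_contra hcon
  rw [not_le] at hcon
  have hρ1 : ρ.re < 1 := ((hZFI q χ hA.1 hA.2.2).2.2.2.2.1 ρ hρ).2
  obtain ⟨ℓ, hℓ⟩ : ∃ ℓ : ℝ, ℓ = Real.log M := ⟨_, rfl⟩
  rw [← hℓ] at hL hcon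
  have hℓ1 : 1 ≤ ℓ := by linarith
  have hℓ0 : 0 < ℓ := by linarith
  have hr0 : 0 < 1 / (2 * C₂) / ℓ := by positivity
  have hr1 : 1 / ℓ ^ 2 ≤ 1 / (2 * C₂) / ℓ := by
    rw [div_div, div_le_div_iff_of_pos_left one_pos (by positivity) (by positivity)]
    nlinarith
  have hr2 : 1 / (2 * C₂) / ℓ ≤ 1 / 8 := by
    rw [div_le_iff₀ hℓ0]
    linarith
  have hc2 : 1 / (14 * C₂) / ℓ ≤ 1 / 4 := by
    rw [div_le_iff₀ hℓ0]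
    linarith
  have hq1 : 1 ≤ q := le_trans (by norm_num) hA.1
  have hM1r : (1 : ℝ) ≤ M := by
    have : 1 ≤ M := by omega
    exact_mod_cast this
  have hM2r : (2 : ℝ) ≤ M := by
    have : 2 ≤ M := by omega
    exact_mod_cast this
  have hv : |ρ.im| ≤ (M : ℝ) ^ 8 := le_trans hγ (pow_le_pow_right₀ hM1r (by norm_num))
  have hv2 : |2 * ρ.im| ≤ (M : ℝ) ^ 8 := by
    rw [abs_mul, abs_two]
    calc 2 * |ρ.im| ≤ (M : ℝ) * (M : ℝ) ^ 6 := mul_le_mul hM2r hγ (abs_nonneg _) hM0.le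
      _ = (M : ℝ) ^ 7 := by ring
      _ ≤ (M : ℝ) ^ 8 := pow_le_pow_right₀ hM1r (by norm_num)
  have hP := (hPOS q χ (1 / (2 * C₂) / ℓ) ρ.im hq1 hr0).1
  have hS := hE (1 / (2 * C₂) / ℓ) hr0 (by linarith)
  have hA2 : Adm M (χ ^ 2) := ⟨hA.1, hA.2.1, hχ⟩
  have hQ := hO M hM1 q (χ ^ 2) hA2 (1 / (2 * C₂) / ℓ) (2 * ρ.im) (by rw [← hℓ]; exact hr1) (by linarith) hv2 ∅
    (by simp)
  have hu : 0 < 1 - ρ.re := by linarith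
  have hO1 := hO M hM1 q χ hA (1 / (2 * C₂) / ℓ) ρ.im (by rw [← hℓ]; exact hr1) (by linarith) hv {ρ} (by
    intro z hz
    rw [Finset.mem_singleton] at hz
    rw [hz]
    refine ⟨hρ, ?_⟩
    rw [ZF1_sp, Complex.norm_real, Real.norm_of_nonneg (by linarith)]
    linarith)
  rw [Finset.sum_singleton, ZF1_sp, ← Complex.ofReal_inv, Complex.ofReal_re, ← hℓ] at hO1
  rw [Finset.sum_empty, neg_zero, zero_add, ← hℓ] at hQ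
  have e : 1 + 1 / (2 * C₂) / ℓ - ρ.re = 1 / (2 * C₂) / ℓ + (1 - ρ.re) := by ring
  rw [e] at hO1
  exact ZF1_num C₂ ℓ (1 - ρ.re) _ _ _ C₁ C hC₂0 hC₁ hC hC₂ hℓ1 hu (by linarith) hS hO1 hQ hP

end Pool.Agent.TWG
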