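import Pool.Agent.helper40.TW.SpecG

set_option autoImplicit false

open Complex MeasureTheory Metric
open scoped ComplexConjugate ArithmeticFunction.vonMangoldt

namespace Pool.Agent.TWG

open Pool.Agent.helper6.LD (wt)
open Pool.Agent.helper85.BVP (ex)
open Pool.Agent.TW (Win Pw)

theorem ZFR (_hZFI : ZFI_stmt) (hZF1 : ZF1_stmt) (hZF2 : ZF2_stmt) : ZFR_stmt := by
  intro c₀ hc₀
  obtain ⟨c₁, M₁, hc₁, hM₁, h1⟩ := hZF1
  obtain ⟨c₂, M₂, hc₂, hM₂, h2⟩ := hZF2
  refine ⟨min c₁ (min c₂ c₀), max M₁ M₂, lt_min hc₁ (lt_min hc₂ hc₀), le_trans hM₁ (le_max_left _ _), ?_⟩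
  intro M hM q χ hA hG ρ hρ hγ
  have hM1 : M₁ ≤ M := le_trans (le_max_left _ _) hM
  have hM2 : M₂ ≤ M := le_trans (le_max_right _ _) hM
  have hq1 : (1 : ℝ) < q := by
    have : 1 < q := lt_of_lt_of_le (by norm_num) hA.1
    exact_mod_cast this
  have hqM : (q : ℝ) ≤ M := by exact_mod_cast hA.2.1
  have hlq : 0 < Real.log q := Real.log_pos hq1
  have hlM : Real.log q ≤ Real.log M := Real.log_le_log (by linarith) hqM
  have hlM0 : 0 < Real.log M := by linarith
  have key : ∀ c' : ℝ, min c₁ (min c₂ c₀) ≤ c' → ρ.re ≤ 1 - c' / Real.log M →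
      ρ.re ≤ 1 - min c₁ (min c₂ c₀) / Real.log M := by
    intro c' hc' h
    have : min c₁ (min c₂ c₀) / Real.log M ≤ c' / Real.log M := div_le_div_of_nonneg_right hc' hlM0.le
    linarith
  by_cases hχ : χ ^ 2 = 1
  · by_cases him : ρ.im = 0
    · refine key c₀ (le_trans (min_le_right _ _) (min_le_right _ _)) ?_
      rcases hG with hG | hG
      · exact absurd hχ hG
      · by_contra hcon
        rw [not_le] at hcon
        have h3 : c₀ / Real.log M ≤ c₀ / Real.log q := div_le_div_of_nonneg_left hc₀.le hlq hlM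
        have h4 := hG ρ.re (by linarith)
        apply h4
        have : ((ρ.re : ℝ) : ℂ) = ρ := by
          apply Complex.ext
          · simp
          · simp [him]
        rw [this]
        exact hρ
    · exact key c₂ (le_trans (min_le_right _ _) (min_le_left _ _)) (h2 M hM2 q χ hA hχ ρ hρ him hγ)
  · exact key c₁ (min_le_left _ _) (h1 M hM1 q χ hA hχ ρ hρ hγ)

end Pool.Agent.TWG
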