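import Pool.Agent.helper40.TW.SpecG
import Pool.Agent.helper85.MT.Large

set_option autoImplicit false

open Complex MeasureTheory Metric
open scoped ComplexConjugate ArithmeticFunction.vonMangoldt

namespace Pool.Agent.TWG

open Pool.Agent.helper6.LD (wt)
open Pool.Agent.helper85.BVP (ex)
open Pool.Agent.TW (Win Pw)

theorem DEN_bdd (α T : ℝ) : Bornology.IsBounded (bx α T) := by
  refine (Metric.isBounded_iff_subset_closedBall 0).2 ⟨|1 - α| + 1 + |T|, ?_⟩
  intro z hz
  obtain ⟨h1, h2, h3⟩ := hz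
  rw [mem_closedBall, dist_zero_right]
  have h4 : |z.re| ≤ |1 - α| + 1 := by
    rw [abs_le]
    constructor
    · have := neg_abs_le (1 - α)
      linarith
    · have := abs_nonneg (1 - α)
      linarith
  have h5 : |z.im| ≤ |T| := le_trans h3 (le_abs_self T)
  calc ‖z‖ ≤ |z.re| + |z.im| := Complex.norm_le_abs_re_add_abs_im z
    _ ≤ _ := by linarith

theorem DEN_mono {α α' : ℝ} (T : ℝ) (h : α ≤ α') : bx α T ⊆ bx α' T := by
  rintro z ⟨h1, h2, h3⟩
  exact ⟨by linarith, h2, h3⟩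

theorem DEN_F (hZFI : ZFI_stmt) (M : ℕ) {α α' : ℝ} (T : ℝ) (h : α ≤ α') :
    ∑ q ∈ Finset.Icc 2 M, ∑ χ ∈ PC q, nz χ (bx α T) ≤ ∑ q ∈ Finset.Icc 2 M, ∑ χ ∈ PC q, nz χ (bx α' T) := by
  refine Finset.sum_le_sum fun q hq => Finset.sum_le_sum fun χ hχ => ?_
  have hq2 : 2 ≤ q := (Finset.mem_Icc.1 hq).1
  have hp : χ.IsPrimitive := by
    simpa [PC] using hχ
  obtain ⟨-, -, -, -, -, hm, -⟩ := hZFI q χ hq2 (Pool.Agent.helper85.MT.prim_ne_one hq2 hp)
  exact hm _ _ (DEN_mono T h) (DEN_bdd α' T)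

theorem DEN (hZFI : ZFI_stmt) (hDEN0 : DEN0_stmt) (hDENT : DENT_stmt) : DEN_stmt := by
  obtain ⟨C, C', r₀, M₁, hC, hC', hr₀, hr₀8, hM₁, h0⟩ := hDEN0
  obtain ⟨M₂, hT⟩ := hDENT
  obtain ⟨M₃, hM₃⟩ := exists_nat_ge (Real.exp (1 / r₀))
  refine ⟨C * Real.exp C' + 1, 2 * C' + 18 / r₀, max M₁ (max M₂ M₃), by positivity, by positivity,
    le_trans hM₁ (le_max_left _ _), ?_⟩
  intro M hM α hα hα8
  have hM1 : M₁ ≤ M := le_trans (le_max_left _ _) hM
  have hM2 : M₂ ≤ M := le_trans (le_trans (le_max_left _ _) (le_max_right _ _)) hM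
  have hM3 : M₃ ≤ M := le_trans (le_trans (le_max_right _ _) (le_max_right _ _)) hM
  have hM0 : 0 < M := by omega
  have hMr : (0 : ℝ) < M := by exact_mod_cast hM0
  have hL : 1 / r₀ ≤ Real.log M := by
    rw [Real.le_log_iff_exp_le hMr]
    exact le_trans hM₃ (by exact_mod_cast hM3)
  have hL0 : 0 < Real.log M := lt_of_lt_of_le (by positivity) hL
  have hLr : 1 / Real.log M ≤ r₀ := by
    rw [div_le_iff₀ hL0]
    rw [div_le_iff₀ hr₀] at hL
    linarith
  have hE1 : 1 ≤ Real.exp C' := Real.one_le_exp hC'.le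
  have hbig : ∀ t s : ℝ, t ≤ (C * Real.exp C' + 1) * Real.exp s → s ≤ (2 * C' + 18 / r₀) * (α * Real.log M) →
      t ≤ (C * Real.exp C' + 1) * Real.exp ((2 * C' + 18 / r₀) * (α * Real.log M)) := by
    intro t s h1 h2
    exact h1.trans (mul_le_mul_of_nonneg_left (Real.exp_le_exp.2 h2) (by positivity))
  have hαL : 0 ≤ α * Real.log M := by positivity
  rcases le_total α (1 / (2 * Real.log M)) with h | h
  · refine hbig _ 0 ?_ (by positivity)
    refine (DEN_F hZFI M _ (show α ≤ 1 / Real.log M / 2 by rw [div_div, mul_comm (Real.log M)]; exact h)).trans ?_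
    refine (h0 M hM1 (1 / Real.log M) le_rfl hLr).trans ?_
    rw [one_div, inv_mul_cancel₀ hL0.ne', mul_one, Real.exp_zero, mul_one]
    linarith
  · rcases le_total α (r₀ / 2) with h' | h'
    · refine hbig _ (C' * (2 * α * Real.log M)) ?_ ?_
      · refine (DEN_F hZFI M _ (show α ≤ 2 * α / 2 by linarith)).trans ?_
        refine (h0 M hM1 (2 * α) ?_ (by linarith)).trans ?_
        · rw [div_le_iff₀ (by positivity)] at h
          rw [div_le_iff₀ hL0]
          linarith
        · refine mul_le_mul_of_nonneg_right ?_ (Real.exp_pos _).le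
          nlinarith
      · have : 0 ≤ 18 / r₀ * (α * Real.log M) := by positivity
        nlinarith
    · refine hbig _ (9 * Real.log M) ?_ ?_
      · refine (DEN_F hZFI M _ hα8).trans ((hT M hM2).trans ?_)
        have e : (M : ℝ) ^ 9 = Real.exp (9 * Real.log M) := by
          have h9 : (9 : ℝ) * Real.log M = ((9 : ℕ) : ℝ) * Real.log M := by norm_num
          rw [h9, Real.exp_nat_mul, Real.exp_log hMr]
        rw [e]
        refine le_mul_of_one_le_left (Real.exp_pos _).le ?_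
        have : 0 ≤ C * Real.exp C' := by positivity
        linarith
      · have h1 : 9 ≤ 18 / r₀ * α := by
          rw [div_mul_eq_mul_div, le_div_iff₀ hr₀]
          linarith
        have h2 : 0 ≤ 2 * C' * (α * Real.log M) := by positivity
        have h3 : 9 * Real.log M ≤ 18 / r₀ * α * Real.log M := mul_le_mul_of_nonneg_right h1 hL0.le
        linarith

end Pool.Agent.TWG
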